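import Mathlib
import Pool.Agent.Q216.UU.Final

/-!
# MP_8785fb_lc, Q1: UpUr SRCA_n is different from WRCA_n

For every finite dimension `n ≥ 3` there is an atomic representable cylindric algebra of dimension
`n` which is not an ultraproduct of ultraroots of strongly representable atomic algebras.
-/

set_option autoImplicit false

namespace Pool.Agent.Results.MP_8785fb_lc.NotUpUr

open Pool.Agent.Q216.UU

/-- For every `n ≥ 3` there is an algebra in `WRCA n` which is not in `Up Ur SRCA n`. -/
theorem result.{v, w, x, y, z, t} (n : ℕ) (hn : 3 ≤ n) :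
    ∃ (A : Type) (_ : CylOps n A), WRCA.{0, 0, 0} n A ∧
      ¬ UpUrSRCA.{0, v, w, x, y, z, t} n A :=
  exists_algebra.{v, w, x, y, z, t} n hn

end Pool.Agent.Results.MP_8785fb_lc.NotUpUr
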